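import Mathlib
import Pool.Agent.R121.PermList

set_option autoImplicit false

/-!
# Expected consecutive pattern counts versus inversion number: unimodality fails

For the consecutive pattern `51234` and `n = 7 = |π| + 2` the expected number of occurrences in a
uniformly random permutation of `[7]` with `m` inversions is `6/169` for `m = 5`, `15/455` for
`m = 8` and `18/531` for `m = 9`, so the sequence goes down and then up again.
-/

namespace Pool.Agent.Results.MP_094caa_co.NotUnimodal

open Finset Pool.Agent.R121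

/-- The number of inversions of a permutation of `Fin n`. -/
def invCount {n : ℕ} (σ : Equiv.Perm (Fin n)) : ℕ :=
  (univ.filter fun p : Fin n × Fin n => p.1 < p.2 ∧ σ p.2 < σ p.1).card

/-- The number of occurrences of `π` as a consecutive pattern in `σ`: the number of starting
positions `i` (with `i + k ≤ n`) such that the entries at the positions `i, i+1, ..., i+k-1` are in
the same relative order as `π`. -/
def occ {k n : ℕ} (π : Equiv.Perm (Fin k)) (σ : Equiv.Perm (Fin n)) : ℕ :=
  (univ.filter fun i : Fin (n + 1 - k) => ∀ a b : Fin k,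
    (σ ⟨i + a, by omega⟩ < σ ⟨i + b, by omega⟩ ↔ π a < π b)).card

/-- The expected number of occurrences of the consecutive pattern `π` in a permutation chosen
uniformly at random among the permutations of length `n` with exactly `m` inversions. -/
def expectedOcc {k : ℕ} (π : Equiv.Perm (Fin k)) (n m : ℕ) : ℚ :=
  (∑ σ ∈ univ.filter (fun σ : Equiv.Perm (Fin n) => invCount σ = m), (occ π σ : ℚ)) /
    ((univ.filter fun σ : Equiv.Perm (Fin n) => invCount σ = m).card : ℚ)

/-- number of elements of the list smaller than `a` -/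
def cntL (a : ℕ) : List ℕ → ℕ
  | [] => 0
  | b :: l => (cond (Nat.blt b a) 1 0) + cntL a l

/-- inversions of a list -/
def invL : List ℕ → ℕ
  | [] => 0
  | a :: l => cntL a l + invL l

/-- is the window of the pattern `51234` -/
def win (a b c d e : ℕ) : ℕ :=
  cond (Nat.blt b c && Nat.blt c d && Nat.blt d e && Nat.blt e a) 1 0

/-- occurrences of `51234` in a list of length 7 -/
def occL : List ℕ → ℕ
  | [a, b, c, d, e, f, g] => win a b c d e + win b c d e f + win c d e f g
  | _ => 0

/-- The pattern `51234` (written with values `0, ..., 4`). -/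
def pat : Equiv.Perm (Fin 5) := finRotate 5 |>.symm

lemma pat_lt (f : Fin 5 → Fin 7) :
    (∀ a b : Fin 5, (f a < f b ↔ pat a < pat b)) ↔
      (f 1 < f 2 ∧ f 2 < f 3 ∧ f 3 < f 4 ∧ f 4 < f 0) := by
  constructor
  · intro h
    refine ⟨(h 1 2).2 (by decide), (h 2 3).2 (by decide), (h 3 4).2 (by decide),
      (h 4 0).2 (by decide)⟩
  · rintro ⟨h1, h2, h3, h4⟩
    have e0 : pat 0 = 4 := by decide
    have e1 : pat 1 = 0 := by decide
    have e2 : pat 2 = 1 := by decide
    have e3 : pat 3 = 2 := by decide
    have e4 : pat 4 = 3 := by decide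
    intro a b
    fin_cases a <;> fin_cases b <;> simp [e0, e1, e2, e3, e4] <;>
      first
        | exact h1 | exact h2 | exact h3 | exact h4
        | exact h1.le | exact h2.le | exact h3.le | exact h4.le
        | (simp only [Fin.lt_def, Fin.le_def] at *; omega)

lemma toL_seven (σ : Equiv.Perm (Fin 7)) :
    toL σ = [((σ 0 : Fin 7) : ℕ), ((σ 1 : Fin 7) : ℕ), ((σ 2 : Fin 7) : ℕ), ((σ 3 : Fin 7) : ℕ),
      ((σ 4 : Fin 7) : ℕ), ((σ 5 : Fin 7) : ℕ), ((σ 6 : Fin 7) : ℕ)] := by
  unfold toL
  simp [List.ofFn_succ]

lemma invCount_seven (σ : Equiv.Perm (Fin 7)) : invCount σ = invL (toL σ) := by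
  rw [toL_seven]
  unfold invCount
  rw [card_filter, Fintype.sum_prod_type]
  simp only [Fin.sum_univ_seven]
  simp [invL, cntL, cond_eq_ite]
  ring

lemma occ_seven (σ : Equiv.Perm (Fin 7)) : occ pat σ = occL (toL σ) := by
  rw [toL_seven]
  unfold occ
  rw [card_filter]
  have h : ∀ i : Fin 3, (∀ a b : Fin 5,
      (σ ⟨i + a, by omega⟩ < σ ⟨i + b, by omega⟩ ↔ pat a < pat b)) ↔ _ :=
    fun i => pat_lt (fun a => σ ⟨i + a, by omega⟩)
  change (∑ i : Fin 3, if (∀ a b : Fin 5,
      (σ ⟨i + a, by omega⟩ < σ ⟨i + b, by omega⟩ ↔ pat a < pat b)) then 1 else 0) = _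
  simp only [h, Fin.sum_univ_three]
  simp [occL, win, cond_eq_ite, and_assoc]

/-- all words -/
def allL : List (List ℕ) := (List.range 7).permutations'

lemma card_eq (m : ℕ) :
    (univ.filter fun σ : Equiv.Perm (Fin 7) => invCount σ = m).card =
      (allL.map fun l => cond (Nat.beq (invL l) m) 1 0).sum := by
  rw [card_filter]
  have := sum_perm (n := 7) (fun l => cond (Nat.beq (invL l) m) 1 0)
  unfold allL
  rw [← this]
  apply Finset.sum_congr rfl
  intro σ _
  rw [invCount_seven, cond_eq_ite]
  simp

lemma sum_eq (m : ℕ) :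
    (∑ σ ∈ univ.filter (fun σ : Equiv.Perm (Fin 7) => invCount σ = m), (occ pat σ : ℚ)) =
      (((allL.map fun l => cond (Nat.beq (invL l) m) (occL l) 0).sum : ℕ) : ℚ) := by
  rw [sum_filter]
  have := sum_perm (n := 7) (fun l => cond (Nat.beq (invL l) m) (occL l) 0)
  unfold allL
  rw [← this]
  push_cast
  apply Finset.sum_congr rfl
  intro σ _
  rw [invCount_seven, occ_seven, cond_eq_ite]
  simp

set_option maxRecDepth 100000 in
lemma c5 : (allL.map fun l => cond (Nat.beq (invL l) 5) 1 0).sum = 169 := by decide +kernel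
set_option maxRecDepth 100000 in
lemma c8 : (allL.map fun l => cond (Nat.beq (invL l) 8) 1 0).sum = 455 := by decide +kernel
set_option maxRecDepth 100000 in
lemma c9 : (allL.map fun l => cond (Nat.beq (invL l) 9) 1 0).sum = 531 := by decide +kernel
set_option maxRecDepth 100000 in
lemma s5 : (allL.map fun l => cond (Nat.beq (invL l) 5) (occL l) 0).sum = 6 := by decide +kernel
set_option maxRecDepth 100000 in
lemma s8 : (allL.map fun l => cond (Nat.beq (invL l) 8) (occL l) 0).sum = 15 := by decide +kernel
set_option maxRecDepth 100000 in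
lemma s9 : (allL.map fun l => cond (Nat.beq (invL l) 9) (occL l) 0).sum = 18 := by decide +kernel

/-- **Disproof of Q1**: there are a consecutive pattern `π` (namely `51234`), an integer
`n ≥ |π| + 2` (namely `7`) and inversion numbers `a < b < c ≤ n(n-1)/2` (namely `5, 8, 9`) such that
the expected number of occurrences of `π` in a uniformly random permutation of length `n` with a
given number of inversions is larger at `a` and at `c` than at `b`. -/
theorem result : ∃ (k : ℕ) (π : Equiv.Perm (Fin k)) (n : ℕ), k + 2 ≤ n ∧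
    ∃ a b c : ℕ, a < b ∧ b < c ∧ c ≤ n.choose 2 ∧
      expectedOcc π n b < expectedOcc π n a ∧ expectedOcc π n b < expectedOcc π n c := by
  refine ⟨5, pat, 7, by norm_num, 5, 8, 9, by norm_num, by norm_num, by decide, ?_, ?_⟩
  · unfold expectedOcc
    rw [sum_eq, sum_eq, card_eq, card_eq, c5, c8, s5, s8]
    norm_num
  · unfold expectedOcc
    rw [sum_eq, sum_eq, card_eq, card_eq, c9, c8, s9, s8]
    norm_num

end Pool.Agent.Results.MP_094caa_co.NotUnimodal
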